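import Mathlib
import Pool.Agent.V11133.NRArrow

/-!
# For all `k ≥ ℓ ≥ 2` there is a graph `G` with `G ↛ (K_k, K_k, K_ℓ)` and
`G → (K_{k+1}, K_{k-1}, K_ℓ)`
-/

set_option autoImplicit false

namespace Pool.Agent.Results.MP_5efe44_co.Exists

/-- `G → (K_{a 0}, …, K_{a (r-1)})`: for every colouring of the edges of `G` with the colours
`0, …, r-1` there are a colour `i` and a set of `a i` vertices of `G` any two of which are joined
by an edge of colour `i`. -/
def Arrows {V : Type} (G : SimpleGraph V) {r : ℕ} (a : Fin r → ℕ) : Prop :=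
  ∀ χ : G.edgeSet → Fin r, ∃ (i : Fin r) (s : Finset V), s.card = a i ∧
    ∀ x ∈ s, ∀ y ∈ s, x ≠ y → ∃ h : s(x, y) ∈ G.edgeSet, χ ⟨s(x, y), h⟩ = i

/-- The two exceptional pairs `{0,1}` and `{2,3}`. -/
def Pr (x y : ℕ) : Prop := x + y = 1 ∨ (x + y = 5 ∧ 2 ≤ x ∧ 2 ≤ y)

instance (x y : ℕ) : Decidable (Pr x y) := by unfold Pr; infer_instance

/-- The colourings of the blocks. -/
def w (j : Fin 6) (x y : ℕ) : Fin 3 :=
  if j = 0 then 0 else if j = 1 then 1 else if j = 2 then 2 else
  if j = 3 then (if Pr x y then 1 else 0) else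
  if j = 4 then (if Pr x y then 2 else 0) else (if Pr x y then 2 else 1)

/-- The sizes of the blocks. -/
def sz (k ℓ : ℕ) (j : Fin 6) : ℕ :=
  if j = 0 then k - 1 else if j = 1 then k - 1 else if j = 2 then ℓ - 1 else
  if j = 3 then k + 1 else if k = ℓ then k + 1 else 0

lemma card_lt {T : Finset ℕ} {n : ℕ} (h : ∀ x ∈ T, x < n) : T.card ≤ n := by
  have : T ⊆ Finset.range n := fun x hx => Finset.mem_range.2 (h x hx)
  simpa using Finset.card_le_card this

lemma card_le_one {T : Finset ℕ} (h : ∀ x ∈ T, ∀ y ∈ T, x ≠ y → False) : T.card ≤ 1 := by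
  apply Finset.card_le_one.2
  intro x hx y hy
  by_contra hxy
  exact h x hx y hy hxy

lemma pr_card {T : Finset ℕ} (h : ∀ x ∈ T, ∀ y ∈ T, x ≠ y → Pr x y) : T.card ≤ 2 := by
  by_contra hc
  push Not at hc
  obtain ⟨x, hx, y, hy, z, hz, hxy, hxz, hyz⟩ := Finset.two_lt_card.1 hc
  have h1 := h x hx y hy hxy
  have h2 := h x hx z hz hxz
  have h3 := h y hy z hz hyz
  unfold Pr at h1 h2 h3
  omega

lemma not_pr_card {T : Finset ℕ} {k : ℕ} (hk : 3 ≤ k) (hT : ∀ x ∈ T, x < k + 1)
    (h : ∀ x ∈ T, ∀ y ∈ T, x ≠ y → ¬ Pr x y) : T.card ≤ k - 1 := by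
  have h1 : 0 ∉ T ∨ 1 ∉ T := by
    by_contra hc
    push Not at hc
    exact h 0 hc.1 1 hc.2 (by norm_num) (Or.inl (by norm_num))
  have h2 : 2 ∉ T ∨ 3 ∉ T := by
    by_contra hc
    push Not at hc
    exact h 2 hc.1 3 hc.2 (by norm_num) (Or.inr (by norm_num))
  obtain ⟨a, ha, ha2⟩ : ∃ a, a ∉ T ∧ a < 2 := by
    rcases h1 with h1 | h1
    · exact ⟨0, h1, by norm_num⟩
    · exact ⟨1, h1, by norm_num⟩
  obtain ⟨b, hb, hb2, hb4⟩ : ∃ b, b ∉ T ∧ 2 ≤ b ∧ b < 4 := by
    rcases h2 with h2 | h2
    · exact ⟨2, h2, by norm_num, by norm_num⟩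
    · exact ⟨3, h2, by norm_num, by norm_num⟩
  have hsub : T ⊆ ((Finset.range (k + 1)).erase a).erase b := by
    intro x hx
    rw [Finset.mem_erase, Finset.mem_erase, Finset.mem_range]
    exact ⟨fun h => hb (h ▸ hx), fun h => ha (h ▸ hx), hT x hx⟩
  have h3 := Finset.card_le_card hsub
  rw [Finset.card_erase_of_mem, Finset.card_erase_of_mem, Finset.card_range] at h3
  · omega
  · rw [Finset.mem_range]; omega
  · rw [Finset.mem_erase, Finset.mem_range]; omega

/-- A block coloured with two colours is good. -/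
lemma two_block {T : Finset ℕ} {k : ℕ} (hk : 3 ≤ k) (hT : ∀ x ∈ T, x < k + 1)
    (c0 c1 c : Fin 3) (h01 : c0 ≠ c1)
    (h : ∀ x ∈ T, ∀ y ∈ T, x ≠ y → (if Pr x y then c1 else c0) = c) : T.card ≤ k - 1 := by
  by_cases h0 : c = c0
  · apply not_pr_card hk hT
    intro x hx y hy hxy hP
    have := h x hx y hy hxy
    rw [if_pos hP] at this
    exact h01 (h0.symm.trans this.symm)
  · have : T.card ≤ 2 := by
      apply pr_card
      intro x hx y hy hxy
      by_contra hP
      have := h x hx y hy hxy
      rw [if_neg hP] at this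
      exact h0 this.symm
    omega

theorem big (k ℓ : ℕ) (hℓ : 2 ≤ ℓ) (hkℓ : ℓ ≤ k) (hk : 3 ≤ k) :
    ∃ (V : Type) (_ : Finite V) (G : SimpleGraph V),
      ¬ Arrows G ![k, k, ℓ] ∧ Arrows G ![k + 1, k - 1, ℓ] := by
  have aux3 : ∀ z : Fin 3, z = 0 ∨ z = 1 ∨ z = 2 := by decide
  refine V11133.NR.transfer (q := 3) (r := 3) (by norm_num) ![k, k, ℓ] ?_ ![k + 1, k - 1, ℓ]
    (J := Fin 6) (sz k ℓ) w ?_ ?_ ?_
  · intro c
    rcases aux3 c with rfl | rfl | rfl
    · change 2 ≤ k; omega
    · change 2 ≤ k; omega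
    · change 2 ≤ ℓ; omega
  · intro j x y
    have : Pr x y ↔ Pr y x := by unfold Pr; omega
    unfold w
    simp only [this]
  · intro j c T hT hc hcard
    have hmk : ![k, k, ℓ] c = k ∨ (c = 2 ∧ ![k, k, ℓ] c = ℓ) := by
      rcases aux3 c with rfl | rfl | rfl
      · exact Or.inl rfl
      · exact Or.inl rfl
      · exact Or.inr ⟨rfl, rfl⟩
    -- monochromatic blocks of colours other than `c` contain at most one vertex
    have hmono : ∀ d : Fin 3, d ≠ c → (∀ x y, w j x y = d) → T.card ≤ 1 := by
      intro d hd hw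
      exact card_le_one (fun x hx y hy hxy => hd ((hw x y).symm.trans (hc x hx y hy hxy)))
    have hj : j = 0 ∨ j = 1 ∨ j = 2 ∨ j = 3 ∨ j = 4 ∨ j = 5 := by
      clear hT hc hmono
      revert j; decide
    rcases hj with rfl | rfl | rfl | rfl | rfl | rfl
    · have h1 : T.card ≤ k - 1 := card_lt hT
      rcases hmk with h | ⟨rfl, h⟩
      · omega
      · have := hmono 0 (by decide) (fun x y => rfl)
        omega
    · have h1 : T.card ≤ k - 1 := card_lt hT
      rcases hmk with h | ⟨rfl, h⟩
      · omega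
      · have := hmono 1 (by decide) (fun x y => rfl)
        omega
    · have h1 : T.card ≤ ℓ - 1 := card_lt hT
      rcases hmk with h | ⟨rfl, h⟩
      · omega
      · omega
    · have h1 : T.card ≤ k - 1 := two_block hk hT 0 1 c (by decide) hc
      rcases hmk with h | ⟨rfl, h⟩
      · omega
      · have : T.card ≤ 1 := card_le_one (fun x hx y hy hxy => by
          have := hc x hx y hy hxy
          by_cases hP : Pr x y
          · simp [w, hP] at this
          · simp [w, hP] at this)
        omega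
    · by_cases hkl : k = ℓ
      · have hT' : ∀ x ∈ T, x < k + 1 := by
          intro x hx
          have := hT x hx
          simpa [sz, hkl] using this
        have h1 : T.card ≤ k - 1 := two_block hk hT' 0 2 c (by decide) hc
        rcases hmk with h | ⟨-, h⟩ <;> omega
      · have hT' : ∀ x ∈ T, x < 0 := by
          intro x hx
          have := hT x hx
          simp [sz, hkl] at this
        have h1 := card_lt hT'
        rcases hmk with h | ⟨-, h⟩ <;> omega
    · by_cases hkl : k = ℓ
      · have hT' : ∀ x ∈ T, x < k + 1 := by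
          intro x hx
          have := hT x hx
          simpa [sz, hkl] using this
        have h1 : T.card ≤ k - 1 := two_block hk hT' 1 2 c (by decide) hc
        rcases hmk with h | ⟨-, h⟩ <;> omega
      · have hT' : ∀ x ∈ T, x < 0 := by
          intro x hx
          have := hT x hx
          simp [sz, hkl] at this
        have h1 := card_lt hT'
        rcases hmk with h | ⟨-, h⟩ <;> omega
  · intro φ
    -- colour `1` (second target)
    by_cases h01 : φ 0 = 1
    · refine ⟨0, 1, Finset.range (k - 1), fun x hx => by simpa [sz] using hx, by simp, ?_⟩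
      intro x _ y _ _
      exact h01
    by_cases h11 : φ 1 = 1
    · refine ⟨1, 1, Finset.range (k - 1), fun x hx => by simpa [sz] using hx, by simp, ?_⟩
      intro x _ y _ _
      exact h11
    rcases hkℓ.lt_or_eq with hlt | heq
    · by_cases h02 : φ 0 = 2
      · refine ⟨0, 2, Finset.range ℓ, fun x hx => ?_, by simp, ?_⟩
        · have := Finset.mem_range.1 hx
          simp only [sz, if_true]
          omega
        · intro x _ y _ _
          exact h02
      by_cases h12 : φ 1 = 2
      · refine ⟨1, 2, Finset.range ℓ, fun x hx => ?_, by simp, ?_⟩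
        · have := Finset.mem_range.1 hx
          change x < k - 1
          omega
        · intro x _ y _ _
          exact h12
      have h0 : φ 0 = 0 := by rcases aux3 (φ 0) with h | h | h <;> tauto
      have h1 : φ 1 = 0 := by rcases aux3 (φ 1) with h | h | h <;> tauto
      refine ⟨3, 0, Finset.range (k + 1), fun x hx => Finset.mem_range.1 hx, by simp, ?_⟩
      intro x _ y _ _
      change φ (if Pr x y then 1 else 0) = 0
      split_ifs
      · exact h1
      · exact h0
    · subst heq
      by_cases h21 : φ 2 = 1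
      · refine ⟨2, 1, Finset.range (ℓ - 1), fun x hx => Finset.mem_range.1 hx, by simp, ?_⟩
        intro x _ y _ _
        exact h21
      -- two colours have the same image
      have key : ∀ (j : Fin 6) (c0 c1 : Fin 3), sz ℓ ℓ j = ℓ + 1 →
          (∀ x y, w j x y = if Pr x y then c1 else c0) → φ c0 = φ c1 → φ c0 ≠ 1 →
          ∃ (j : Fin 6) (t : Fin 3) (T : Finset ℕ), (∀ x ∈ T, x < sz ℓ ℓ j) ∧
            T.card = (![ℓ + 1, ℓ - 1, ℓ] : Fin 3 → ℕ) t ∧
            ∀ x ∈ T, ∀ y ∈ T, x ≠ y → φ (w j x y) = t := by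
        intro j c0 c1 hsz hw h hne
        have hval : ∀ x y, φ (w j x y) = φ c0 := by
          intro x y
          rw [hw]
          split_ifs
          · exact h.symm
          · rfl
        rcases aux3 (φ c0) with h' | h' | h'
        · refine ⟨j, 0, Finset.range (ℓ + 1), fun x hx => ?_, by simp, ?_⟩
          · rw [hsz]; exact Finset.mem_range.1 hx
          · intro x _ y _ _
            rw [hval, h']
        · exact absurd h' hne
        · refine ⟨j, 2, Finset.range ℓ, fun x hx => ?_, by simp, ?_⟩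
          · rw [hsz]
            have := Finset.mem_range.1 hx
            omega
          · intro x _ y _ _
            rw [hval, h']
      by_cases e01 : φ 0 = φ 1
      · exact key 3 0 1 rfl (fun x y => rfl) e01 h01
      by_cases e02 : φ 0 = φ 2
      · exact key 4 0 2 (by simp [sz]) (fun x y => rfl) e02 h01
      by_cases e12 : φ 1 = φ 2
      · exact key 5 1 2 (by simp [sz]) (fun x y => rfl) e12 h11
      exfalso
      revert h01 h11 h21 e01 e02 e12
      generalize φ 0 = a
      generalize φ 1 = b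
      generalize φ 2 = c
      revert a b c
      decide

theorem result (k ℓ : ℕ) (hℓ : 2 ≤ ℓ) (hkℓ : ℓ ≤ k) :
    ∃ (V : Type) (_ : Finite V) (G : SimpleGraph V),
      ¬ Arrows G ![k, k, ℓ] ∧ Arrows G ![k + 1, k - 1, ℓ] := by
  by_cases hk : 3 ≤ k
  · exact big k ℓ hℓ hkℓ hk
  · obtain rfl : k = 2 := by omega
    obtain rfl : ℓ = 2 := by omega
    refine ⟨Fin 1, inferInstance, ⊥, ?_, ?_⟩
    · intro h
      obtain ⟨i, s, hs, -⟩ := h (fun _ => 0)
      have h1 : s.card ≤ 1 := by
        have := Finset.card_le_univ s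
        simpa using this
      have h2 : (![2, 2, 2] : Fin 3 → ℕ) i = 2 := by
        fin_cases i <;> rfl
      omega
    · intro χ
      refine ⟨1, {0}, rfl, ?_⟩
      intro x _ y _ hxy
      exact absurd (Subsingleton.elim x y) hxy

end Pool.Agent.Results.MP_5efe44_co.Exists
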